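import Pool.Agent.KS6_80.MJ.B

/-!
# The strong majority number of every Eulerian graph

`Maj'(G)` is `2` or `3` for every Eulerian graph `G`, and it is `2` exactly when `G` has a height
function; this forces `G` to be bipartite with `4 ∣ |E(G)|`.
-/

set_option autoImplicit false

namespace Pool.Agent.Results.MP_dcf3dc_co.ExactValue

open Pool.Agent.Results.MP_dcf3dc_co.EulerianThree

/-- Let `G` be an Eulerian graph. Then `Maj'(G)` is `2` or `3`. It is `2` if and only if there is
`τ : V → ℤ` such that every neighbour of a vertex `v` has height `τ v + 1` or `τ v - 1`, and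
exactly `d(v)/2 + τ v` of them have height `τ v - 1`; equivalently, if and only if some
`τ : V → ℤ` changes by `1` along every edge and satisfies `L τ = 2 τ` for the Laplacian `L` of `G`.
In particular, if `Maj'(G) = 2` then `G` is bipartite and its number of edges is divisible by
four. -/
theorem result (V : Type) [Fintype V] [DecidableEq V] (G : SimpleGraph V) [DecidableRel G.Adj]
    (hG : IsEulerianGraph G) :
    (maj G = 2 ∨ maj G = 3) ∧
    (maj G = 2 ↔ ∃ τ : V → ℤ,
      (∀ u v : V, G.Adj u v → τ u = τ v + 1 ∨ τ v = τ u + 1) ∧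
      ∀ v : V, 2 * ((((G.neighborFinset v).filter fun u => τ u = τ v - 1).card : ℕ) : ℤ) =
        G.degree v + 2 * τ v) ∧
    (maj G = 2 ↔ ∃ τ : V → ℤ,
      (∀ u v : V, G.Adj u v → τ u = τ v + 1 ∨ τ v = τ u + 1) ∧
      ∀ v : V, ∑ u ∈ G.neighborFinset v, (τ v - τ u) = 2 * τ v) ∧
    (maj G = 2 → G.IsBipartite ∧ 4 ∣ G.edgeFinset.card) := by
  obtain ⟨h1, h2, h3⟩ := Pool.Agent.KS6_80.MJ.main hG
  refine ⟨h1, h2, h2.trans ?_, h3⟩
  exact exists_congr fun τ => Pool.Agent.KS6_80.MJ.height_iff τ

end Pool.Agent.Results.MP_dcf3dc_co.ExactValue
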